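import Pool.Agent.Q290.CV.Gen

/-!
# The density of the elements in models with doubly exponentially small probabilities
-/

set_option autoImplicit false

namespace Pool.Agent.Q290.CV

open Finset MeasureTheory Filter Pool.Agent.Q120.ET Pool.Agent.Q120.ME
open scoped Topology

theorem ind_univ (K : ℕ) : ind Set.univ K = range K := by
  classical
  ext n
  rw [mem_ind, mem_range]
  simp

variable {q : ℕ → ℝ} {c : ℝ}

theorem sum_exp (hq : ∀ k, 0 < q k ∧ q k < 1) (hlim : Tendsto (fun k : ℕ => -Real.log (q k) / 2 ^ k) atTop (𝓝 c)) {κ : ℝ}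
    (hκ : κ < c) : Summable (fun k : ℕ => q k * Real.exp (κ * 2 ^ k)) := by
  obtain ⟨η, hη⟩ : ∃ η, η = (c - κ) / 2 := ⟨_, rfl⟩
  have hη0 : 0 < η := by rw [hη]; linarith
  have h1 : Summable (fun k : ℕ => Real.exp (-η) ^ k) :=
    summable_geometric_of_lt_one (Real.exp_pos _).le ((Real.exp_lt_exp.2 (show -η < 0 by linarith)).trans_eq Real.exp_zero)
  refine Summable.of_norm_bounded_eventually_nat h1 ?_
  filter_upwards [hlim.eventually (lt_mem_nhds (show κ + η < c by rw [hη]; linarith))] with k hk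
  rw [Real.norm_of_nonneg (mul_nonneg (hq k).1.le (Real.exp_pos _).le)]
  have h2 : (0 : ℝ) < 2 ^ k := by positivity
  rw [lt_div_iff₀ h2] at hk
  have h3 : q k = Real.exp (Real.log (q k)) := (Real.exp_log (hq k).1).symm
  rw [h3, ← Real.exp_add, ← Real.exp_nat_mul]
  apply Real.exp_le_exp.2
  have h4 : (k : ℝ) ≤ 2 ^ k := by exact_mod_cast (Nat.lt_two_pow_self (n := k)).le
  nlinarith

/-- The expected number of elements. -/
theorem mean_density (hq : ∀ k, 0 < q k ∧ q k < 1) (hc : 0 < c) (hlim : Tendsto (fun k : ℕ => -Real.log (q k) / 2 ^ k) atTop (𝓝 c))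
    {δ : ℝ} (hδ : 0 ≤ δ) {Ω : Type} [MeasurableSpace Ω] {μ : Measure Ω} [IsProbabilityMeasure μ] {A : Ω → Set ℕ}
    (hA : IsRandomSet A) (hD : ∀ ε : ℝ, 0 < ε → ∀ᶠ K : ℕ in atTop, relEnt q μ A (range K) ≤ (δ + ε) * (c * 2 ^ K)) :
    ∀ ε : ℝ, 0 < ε → ∀ᶠ K : ℕ in atTop, ∑ k ∈ range K, μ.real {ω | k ∈ A ω} ≤ (δ + ε) * K := by
  intro ε hε
  obtain ⟨α, hα⟩ : ∃ α : ℕ → ℝ, α = fun n => μ.real {ω | n ∈ A ω} := ⟨_, rfl⟩
  have hα0 : ∀ n, 0 ≤ α n := fun n => by rw [hα]; exact measureReal_nonneg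
  -- the constants
  obtain ⟨η, hη0, hη1, hη2⟩ : ∃ η : ℝ, 0 < η ∧ η < 1 ∧ (δ + η) < (δ + ε) * (1 - η) := by
    refine ⟨min (1 / 2) (ε / (2 * (1 + δ + ε))), ?_, ?_, ?_⟩
    · refine lt_min (by norm_num) (by positivity)
    · exact lt_of_le_of_lt (min_le_left _ _) (by norm_num)
    · obtain ⟨η, hη⟩ : ∃ η, η = min (1 / 2) (ε / (2 * (1 + δ + ε))) := ⟨_, rfl⟩
      rw [← hη]
      have h1 : η ≤ ε / (2 * (1 + δ + ε)) := by rw [hη]; exact min_le_right _ _
      rw [le_div_iff₀ (by positivity)] at h1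
      nlinarith
  obtain ⟨κ, hκ⟩ : ∃ κ, κ = c * (1 - η) := ⟨_, rfl⟩
  have hκ0 : 0 < κ := by rw [hκ]; exact mul_pos hc (by linarith)
  have hκc : κ < c := by rw [hκ]; nlinarith
  obtain ⟨S, hS⟩ : ∃ S, S = ∑' k : ℕ, q k * Real.exp (κ * 2 ^ k) := ⟨_, rfl⟩
  have hsum := sum_exp hq hlim hκc
  obtain ⟨x₀, hx₀⟩ := eventually_atTop.1 (hD η hη0)
  obtain ⟨g, hg⟩ : ∃ g : ℕ → ℝ, g = fun n => max (κ * 2 ^ n * α n - q n * (Real.exp (κ * 2 ^ n) - 1)) 0 := ⟨_, rfl⟩
  have hg0 : ∀ n, 0 ≤ g n := fun n => by rw [hg]; exact le_max_right _ _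
  obtain ⟨B, hB⟩ : ∃ B, B = ∑ n ∈ range x₀, g n := ⟨_, rfl⟩
  have hB0 : 0 ≤ B := by rw [hB]; exact sum_nonneg (fun n _ => hg0 n)
  have hG : ∀ x, ∑ n ∈ range x, g n ≤ (δ + η) * (c * 2 ^ x) + B := by
    intro x
    have hpos : 0 ≤ (δ + η) * (c * 2 ^ x) := by positivity
    rcases le_total x₀ x with hx | hx
    · have h1 : ∑ n ∈ range x, g n ≤ relEnt q μ A (range x) := by
        rw [hg, hα]
        exact pos_part_le (fun n _ => hq n) hA (fun n => κ * 2 ^ n)
      have h2 := hx₀ x hx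
      linarith
    · have h1 : ∑ n ∈ range x, g n ≤ ∑ n ∈ range x₀, g n :=
        sum_le_sum_of_subset_of_nonneg (range_mono hx) (fun n _ _ => hg0 n)
      rw [← hB] at h1
      linarith
  have hmain : ∀ K : ℕ, κ * ∑ k ∈ range K, α k ≤ (δ + η) * c * K + ((δ + η) * c + B + S) := by
    intro K
    have h1 : ∀ n, κ * α n ≤ (1 / 2 ^ n : ℝ) * g n + q n * Real.exp (κ * 2 ^ n) := by
      intro n
      have h2 : (0 : ℝ) < 2 ^ n := by positivity
      have h3 : (1 / 2 ^ n : ℝ) * (κ * 2 ^ n * α n - q n * (Real.exp (κ * 2 ^ n) - 1)) ≤ (1 / 2 ^ n : ℝ) * g n := by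
        rw [hg]
        exact mul_le_mul_of_nonneg_left (le_max_left _ _) (by positivity)
      have h4 : (1 / 2 ^ n : ℝ) * (κ * 2 ^ n * α n - q n * (Real.exp (κ * 2 ^ n) - 1)) =
          κ * α n - (1 / 2 ^ n : ℝ) * (q n * (Real.exp (κ * 2 ^ n) - 1)) := by
        field_simp
      have h5 : (1 / 2 ^ n : ℝ) * (q n * (Real.exp (κ * 2 ^ n) - 1)) ≤ 1 * (q n * Real.exp (κ * 2 ^ n)) := by
        have h6 : 0 ≤ Real.exp (κ * 2 ^ n) - 1 := by
          have := Real.one_le_exp (mul_nonneg hκ0.le h2.le)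
          linarith
        refine mul_le_mul ?_ ?_ (mul_nonneg (hq n).1.le h6) zero_le_one
        · rw [div_le_one h2]
          exact one_le_pow₀ (by norm_num)
        · exact mul_le_mul_of_nonneg_left (by linarith) (hq n).1.le
      linarith
    have h2 : κ * ∑ k ∈ range K, α k ≤ ∑ n ∈ range K, (1 / 2 ^ n : ℝ) * g n + ∑ n ∈ range K, q n * Real.exp (κ * 2 ^ n) := by
      rw [mul_sum, ← sum_add_distrib]
      exact sum_le_sum (fun n _ => h1 n)
    have h3 : ∑ n ∈ range K, q n * Real.exp (κ * 2 ^ n) ≤ S := by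
      rw [hS]
      exact hsum.sum_le_tsum _ (fun n _ => mul_nonneg (hq n).1.le (Real.exp_pos _).le)
    rw [abel_id (fun n => (1 / 2 ^ n : ℝ)) g K] at h2
    have h4 : ∑ n ∈ range K, ((1 / 2 ^ n : ℝ) - 1 / 2 ^ (n + 1)) * ∑ m ∈ range (n + 1), g m ≤
        ∑ n ∈ range K, ((δ + η) * c + ((1 / 2 ^ n : ℝ) - 1 / 2 ^ (n + 1)) * B) := by
      refine sum_le_sum (fun n _ => ?_)
      have h5 : (1 / 2 ^ n : ℝ) - 1 / 2 ^ (n + 1) = 1 / 2 ^ (n + 1) := by
        rw [pow_succ]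
        field_simp
        ring
      rw [h5]
      have h6 := mul_le_mul_of_nonneg_left (hG (n + 1)) (show (0 : ℝ) ≤ 1 / 2 ^ (n + 1) by positivity)
      refine h6.trans (le_of_eq ?_)
      field_simp
    have htel : ∑ n ∈ range K, ((1 / 2 ^ n : ℝ) - 1 / 2 ^ (n + 1)) = 1 / 2 ^ 0 - 1 / 2 ^ K :=
      sum_range_sub' (fun n => (1 / 2 ^ n : ℝ)) K
    rw [sum_add_distrib, sum_const, card_range, nsmul_eq_mul, ← sum_mul, htel] at h4
    have h5 : (1 / 2 ^ K : ℝ) * ∑ n ∈ range K, g n ≤ (δ + η) * c + (1 / 2 ^ K : ℝ) * B := by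
      have h6 := mul_le_mul_of_nonneg_left (hG K) (show (0 : ℝ) ≤ 1 / 2 ^ K by positivity)
      refine h6.trans (le_of_eq ?_)
      field_simp
    have h6 : (1 / 2 ^ 0 : ℝ) = 1 := by norm_num
    rw [h6] at h4
    nlinarith
  have hlin : Tendsto (fun K : ℕ => ((δ + ε) * κ - (δ + η) * c) * (K : ℝ)) atTop atTop := by
    refine Tendsto.const_mul_atTop ?_ tendsto_natCast_atTop_atTop
    rw [hκ]
    nlinarith
  filter_upwards [hlin.eventually_ge_atTop ((δ + η) * c + B + S)] with K hK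
  have h1 := hmain K
  rw [hα] at h1
  have h2 : κ * ∑ k ∈ range K, μ.real {ω | k ∈ A ω} ≤ κ * ((δ + ε) * K) := by
    simp only at h1
    nlinarith
  exact le_of_mul_le_mul_left h2 hκ0

open Classical in
theorem cnt_univ (S : Set ℕ) (K : ℕ) : (cnt Set.univ S K : ℝ) = ∑ k ∈ range K, S.indicator (fun _ => (1 : ℝ)) k := by
  unfold cnt
  rw [ind_univ, card_eq_sum_ones, sum_filter, Nat.cast_sum]
  refine sum_congr rfl (fun k _ => ?_)
  rw [Set.indicator_apply]
  split_ifs <;> simp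

theorem integral_cnt {Ω : Type} [MeasurableSpace Ω] {μ : Measure Ω} [IsProbabilityMeasure μ] {A : Ω → Set ℕ}
    (hA : IsRandomSet A) (K : ℕ) : ∫ ω, (cnt Set.univ (A ω) K : ℝ) ∂μ = ∑ k ∈ range K, μ.real {ω | k ∈ A ω} := by
  classical
  simp only [cnt_univ]
  have h1 : ∀ k : ℕ, (fun ω => (A ω).indicator (fun _ => (1 : ℝ)) k) = Set.indicator {ω | k ∈ A ω} (fun _ => (1 : ℝ)) := by
    intro k
    funext ω
    rw [Set.indicator_apply, Set.indicator_apply]
    rfl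
  rw [integral_finsetSum]
  · refine sum_congr rfl (fun k _ => ?_)
    rw [h1, integral_indicator (hA k)]
    simp
  · intro k _
    rw [h1]
    exact (integrable_const _).indicator (hA k)

theorem cnt_meas {Ω : Type} [MeasurableSpace Ω] {A : Ω → Set ℕ} (hA : IsRandomSet A) (K : ℕ) :
    Measurable (fun ω => (cnt Set.univ (A ω) K : ℝ)) := by
  classical
  simp only [cnt_univ]
  refine Finset.measurable_sum _ (fun k _ => ?_)
  have h1 : (fun ω => (A ω).indicator (fun _ => (1 : ℝ)) k) = Set.indicator {ω | k ∈ A ω} (fun _ => (1 : ℝ)) := by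
    funext ω
    rw [Set.indicator_apply, Set.indicator_apply]
    rfl
  rw [h1]
  exact measurable_const.indicator (hA k)

theorem cnt_le (S : Set ℕ) (K : ℕ) : (cnt Set.univ S K : ℝ) ≤ K := by
  classical
  rw [cnt_univ]
  have h1 : ∑ k ∈ range K, S.indicator (fun _ => (1 : ℝ)) k ≤ ∑ _k ∈ range K, (1 : ℝ) := by
    refine sum_le_sum (fun k _ => ?_)
    rw [Set.indicator_apply]
    split_ifs <;> norm_num
  simpa using h1

/-- The law of the density: necessity. -/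
theorem law_nec (hq : ∀ k, 0 < q k ∧ q k < 1) (hc : 0 < c) (hlim : Tendsto (fun k : ℕ => -Real.log (q k) / 2 ^ k) atTop (𝓝 c))
    {δ : ℝ} (hδ : 0 ≤ δ) {Ω : Type} [MeasurableSpace Ω] {μ : Measure Ω} [IsProbabilityMeasure μ] {A : Ω → Set ℕ}
    (hA : IsRandomSet A) (hD : ∀ ε : ℝ, 0 < ε → ∀ᶠ K : ℕ in atTop, relEnt q μ A (range K) ≤ (δ + ε) * (c * 2 ^ K))
    {L : Ω → ℝ} (hL : Measurable L) (hlimL : ∀ᵐ ω ∂μ, Tendsto (fun K : ℕ => (cnt Set.univ (A ω) K : ℝ) / K) atTop (𝓝 (L ω))) :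
    (μ.map L) (Set.Icc 0 1)ᶜ = 0 ∧ ∫ u, u ∂(μ.map L) ≤ δ := by
  have hb : ∀ (ω : Ω) (K : ℕ), 0 ≤ (cnt Set.univ (A ω) K : ℝ) / K ∧ (cnt Set.univ (A ω) K : ℝ) / K ≤ 1 := by
    intro ω K
    refine ⟨by positivity, ?_⟩
    rcases Nat.eq_zero_or_pos K with h | h
    · rw [h]
      simp
    · rw [div_le_one (by exact_mod_cast h)]
      exact cnt_le _ _
  constructor
  · rw [Measure.map_apply hL measurableSet_Icc.compl]
    refine measure_mono_null (t := {ω | ¬ Tendsto (fun K : ℕ => (cnt Set.univ (A ω) K : ℝ) / K) atTop (𝓝 (L ω))}) ?_ hlimL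
    intro ω hω hT
    exact hω ⟨ge_of_tendsto' hT (fun K => (hb ω K).1), le_of_tendsto' hT (fun K => (hb ω K).2)⟩
  · have hmap : ∫ u, u ∂(μ.map L) = ∫ ω, L ω ∂μ := integral_map (f := fun u : ℝ => u) hL.aemeasurable aestronglyMeasurable_id
    rw [hmap]
    have h1 : Tendsto (fun K : ℕ => ∫ ω, (cnt Set.univ (A ω) K : ℝ) / K ∂μ) atTop (𝓝 (∫ ω, L ω ∂μ)) := by
      refine tendsto_integral_of_dominated_convergence (fun _ => 1)
        (fun K => ((cnt_meas hA K).div_const _).aestronglyMeasurable) (integrable_const _) (fun K => ?_) hlimL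
      refine Eventually.of_forall (fun ω => ?_)
      rw [Real.norm_of_nonneg (hb ω K).1]
      exact (hb ω K).2
    refine le_of_forall_pos_le_add (fun ε hε => ?_)
    refine le_of_tendsto h1 ?_
    filter_upwards [mean_density hq hc hlim hδ hA hD ε hε, eventually_gt_atTop 0] with K hK hK0
    rw [integral_div, integral_cnt hA, div_le_iff₀ (by exact_mod_cast hK0)]
    exact hK

theorem sum_log_le (hc : 0 < c) (hlim : Tendsto (fun k : ℕ => -Real.log (q k) / 2 ^ k) atTop (𝓝 c)) {ε : ℝ} (hε : 0 < ε) :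
    ∃ B : ℝ, ∀ K : ℕ, ∑ k ∈ range K, -Real.log (q k) ≤ (c + ε) * 2 ^ K + B := by
  obtain ⟨n₀, hn₀⟩ := eventually_atTop.1 (hlim.eventually (gt_mem_nhds (show c < c + ε by linarith)))
  refine ⟨∑ k ∈ range n₀, |Real.log (q k)|, fun K => ?_⟩
  have h1 : ∀ k, -Real.log (q k) ≤ (c + ε) * 2 ^ k + if k < n₀ then |Real.log (q k)| else 0 := by
    intro k
    have h2 : (0 : ℝ) < 2 ^ k := by positivity
    split_ifs with h
    · have h3 := neg_le_abs (Real.log (q k))
      have h4 : 0 < (c + ε) * 2 ^ k := by positivity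
      linarith
    · have h3 := hn₀ k (not_lt.1 h)
      rw [div_lt_iff₀ h2] at h3
      linarith
  have h2 := sum_le_sum (s := range K) (fun k _ => h1 k)
  refine h2.trans ?_
  rw [sum_add_distrib, ← mul_sum]
  have h3 : ∑ k ∈ range K, (2 : ℝ) ^ k ≤ 2 ^ K := by
    have := geom_sum_eq (show (2 : ℝ) ≠ 1 by norm_num) K
    rw [this]
    norm_num
  have h4 : (∑ k ∈ range K, if k < n₀ then |Real.log (q k)| else 0) ≤ ∑ k ∈ range n₀, |Real.log (q k)| := by
    rw [← sum_filter]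
    refine sum_le_sum_of_subset_of_nonneg (fun k hk => ?_) (fun k _ _ => abs_nonneg _)
    exact mem_range.2 (mem_filter.1 hk).2
  have h5 : 0 ≤ c + ε := by linarith
  have h6 := mul_le_mul_of_nonneg_left h3 h5
  linarith

/-- The law of the density: sufficiency. -/
theorem law_suf (hq : ∀ k, 0 < q k ∧ q k < 1) (hc : 0 < c) (hlim : Tendsto (fun k : ℕ => -Real.log (q k) / 2 ^ k) atTop (𝓝 c))
    {δ : ℝ} (hδ : 0 ≤ δ) (ν : Measure ℝ) [IsProbabilityMeasure ν] (hν : ν (Set.Icc 0 1)ᶜ = 0) (hν1 : ∫ u, u ∂ν ≤ δ) :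
    ∃ (Ω : Type) (_ : MeasurableSpace Ω) (μ : Measure Ω) (_ : IsProbabilityMeasure μ) (A : Ω → Set ℕ) (L : Ω → ℝ),
      IsRandomSet A ∧ (∀ ε : ℝ, 0 < ε → ∀ᶠ K : ℕ in atTop, relEnt q μ A (range K) ≤ (δ + ε) * (c * 2 ^ K)) ∧ Measurable L ∧
      μ.map L = ν ∧ ∀ᵐ ω ∂μ, Tendsto (fun K : ℕ => (cnt Set.univ (A ω) K : ℝ) / K) atTop (𝓝 (L ω)) := by
  obtain ⟨cl, hcl⟩ : ∃ cl : ℝ → ℝ, cl = fun x => max 0 (min 1 x) := ⟨_, rfl⟩
  have hclm : Measurable cl := by rw [hcl]; exact measurable_const.max (measurable_const.min measurable_id)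
  have hcl0 : ∀ x, 0 ≤ cl x := fun x => by rw [hcl]; exact le_max_left _ _
  have hcl1 : ∀ x, cl x ≤ 1 := fun x => by rw [hcl]; exact max_le zero_le_one (min_le_left _ _)
  have hcle : ∀ᵐ x ∂ν, cl x = x := by
    have h1 : ∀ᵐ x ∂ν, x ∈ Set.Icc (0 : ℝ) 1 := hν
    filter_upwards [h1] with x hx
    rw [hcl]
    simp only
    rw [min_eq_right hx.2, max_eq_right hx.1]
  have hclint : Integrable cl ν := by
    refine Integrable.of_bound hclm.aestronglyMeasurable 1 (Eventually.of_forall (fun x => ?_))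
    rw [Real.norm_of_nonneg (hcl0 x)]
    exact hcl1 x
  have hcli : ∫ x, cl x ∂ν ≤ δ := by
    rw [integral_congr_ae hcle]
    exact hν1
  obtain ⟨r, hr⟩ : ∃ r : ℝ → ℕ → ℝ, r = fun x _ => cl x := ⟨_, rfl⟩
  have hr0 : ∀ x n, 0 ≤ r x n ∧ r x n ≤ 1 := fun x n => by rw [hr]; exact ⟨hcl0 x, hcl1 x⟩
  have hrm : ∀ n, Measurable (fun x => r x n) := fun n => by rw [hr]; exact hclm
  obtain ⟨Ω, m, μ, hμ, A, π, hM⟩ := Pool.Agent.Q285.ME.t_CON ℝ ν r hrm hr0
  have hmodel : CModel Set.univ q (fun k => (2 : ℝ) ^ k) := by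
    refine ⟨fun k _ => (hq k).1, fun k _ => (hq k).2, fun k => by positivity, fun a b hab => pow_le_pow_right₀ (by norm_num) hab,
      tendsto_pow_atTop_atTop_of_one_lt (by norm_num), ⟨c / 2, by positivity, ?_⟩, ⟨c + 1, ?_⟩,
      ⟨1, Eventually.of_forall (fun n => ⟨n, Set.mem_univ n, le_rfl, by rw [one_mul]⟩)⟩⟩
    · rw [Set.indicator_univ]
      exact sum_exp hq hlim (by linarith)
    · filter_upwards [hlim.eventually (gt_mem_nhds (show c < c + 1 by linarith))] with k hk _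
      rw [div_lt_iff₀ (by positivity)] at hk
      exact hk.le
  obtain ⟨B₀, hB₀⟩ := bound_log hmodel
  refine ⟨Ω, m, μ, hμ, A, π, hM.rand, fun ε hε => ?_, hM.meas, hM.map, ?_⟩
  · obtain ⟨η, hη0, hη1⟩ : ∃ η : ℝ, 0 < η ∧ δ * (c + η) < (δ + ε) * c := by
      refine ⟨ε * c / (2 * (δ + 1)), by positivity, ?_⟩
      have h1 : δ * (ε * c / (2 * (δ + 1))) < ε * c := by
        rw [← mul_div_assoc, div_lt_iff₀ (by positivity)]
        nlinarith [mul_pos hε hc]
      nlinarith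
    obtain ⟨B, hB⟩ := sum_log_le hc hlim hη0
    have htop : Tendsto (fun K : ℕ => ((δ + ε) * c - δ * (c + η)) * (2 : ℝ) ^ K) atTop atTop :=
      Tendsto.const_mul_atTop (by linarith) (tendsto_pow_atTop_atTop_of_one_lt (by norm_num))
    filter_upwards [htop.eventually_ge_atTop (δ * |B| + B₀)] with K hK
    have hF : ∀ n ∈ range K, 0 < q n ∧ q n < 1 := fun n _ => hq n
    obtain ⟨h0, h1⟩ := Pool.Agent.Q224.ME.t_ENM ℝ ν r hrm hr0 Ω μ A π hM q (range K) hF
    refine h1.trans ?_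
    have h2 : ∀ x, ∑ n ∈ range K, kl (r x n) (q n) ≤ cl x * ∑ n ∈ range K, -Real.log (q n) + B₀ := by
      intro x
      have h3 : ∑ n ∈ range K, kl (r x n) (q n) ≤ ∑ n ∈ range K, (r x n * -Real.log (q n) + -Real.log (1 - q n)) :=
        sum_le_sum (fun n _ => kl_le (hr0 x n).1 (hr0 x n).2 (hq n).1 (hq n).2)
      rw [sum_add_distrib] at h3
      have h4 := hB₀ K
      rw [ind_univ] at h4
      have h5 : ∑ n ∈ range K, r x n * -Real.log (q n) = cl x * ∑ n ∈ range K, -Real.log (q n) := by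
        rw [hr, mul_sum]
      linarith
    have h3 : ∫ x, ∑ n ∈ range K, kl (r x n) (q n) ∂ν ≤ ∫ x, (cl x * ∑ n ∈ range K, -Real.log (q n) + B₀) ∂ν :=
      integral_mono h0 ((hclint.mul_const _).add (integrable_const _)) h2
    rw [integral_add (hclint.mul_const _) (integrable_const _), integral_mul_const] at h3
    simp only [integral_const, probReal_univ, one_smul] at h3
    have h4 : (∫ x, cl x ∂ν) * ∑ n ∈ range K, -Real.log (q n) ≤ δ * ((c + η) * 2 ^ K + |B|) := by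
      have h5 : 0 ≤ ∑ n ∈ range K, -Real.log (q n) :=
        sum_nonneg (fun n _ => neg_nonneg.2 (Real.log_nonpos (hq n).1.le (hq n).2.le))
      refine (mul_le_mul_of_nonneg_right hcli h5).trans (mul_le_mul_of_nonneg_left ?_ hδ)
      have := hB K
      have h6 := le_abs_self B
      linarith
    nlinarith
  · have h1 := Pool.Agent.Q96.ME.t_SLL ℝ ν r hrm hr0 Ω μ A π hM Set.univ (fun N => (N : ℝ)) 1
      (fun a b hab => Nat.cast_le.2 hab) tendsto_natCast_atTop_atTop (fun n => by push_cast; linarith) cl (by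
        refine Eventually.of_forall (fun x => ?_)
        refine Tendsto.congr' ?_ tendsto_const_nhds
        filter_upwards [eventually_gt_atTop 0] with N hN
        rw [hr, ind_univ]
        simp only [sum_const, card_range, nsmul_eq_mul]
        have : (N : ℝ) ≠ 0 := by exact_mod_cast hN.ne'
        field_simp)
    have h2 : ∀ᵐ ω ∂μ, cl (π ω) = π ω := by
      have h3 : ∀ᵐ x ∂(μ.map π), cl x = x := by rw [hM.map]; exact hcle
      exact ae_of_ae_map hM.meas.aemeasurable h3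
    filter_upwards [h1, h2] with ω h3 h4
    rw [h4] at h3
    exact h3

end Pool.Agent.Q290.CV
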