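import Pool.Agent.Q26.ME.DV
import Pool.Agent.Q285.ME.Constr
import Pool.Agent.Q224.ME.ENM
import Pool.Agent.Q96.ME.SLL

/-!
# Random sets near a model with finite expected number of elements

`U` a set of integers, `0 < q n < 1` for `n ∈ U`; the model contains each `n ∈ U` independently with probability `q n`, and
`∑ q n < ∞`. The relative entropy needed for infinitely many elements.
-/

set_option autoImplicit false

namespace Pool.Agent.Q290.CV

open Finset MeasureTheory Filter Pool.Agent.Q120.ET Pool.Agent.Q120.ME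
open scoped Topology

theorem bern_eq (p : ℕ → ℝ) {F T : Finset ℕ} (hT : T ⊆ F) :
    bern p F T = (∏ n ∈ T, p n) * ∏ n ∈ F \ T, (1 - p n) := by
  classical
  unfold bern
  rw [← Finset.prod_sdiff hT, mul_comm]
  congr 1
  · exact Finset.prod_congr rfl (fun n hn => by rw [if_pos hn])
  · exact Finset.prod_congr rfl (fun n hn => by rw [if_neg (mem_sdiff.1 hn).2])

/-- The generating function with weights. -/
theorem gen_w (p c : ℕ → ℝ) (F : Finset ℕ) (hp : ∀ n ∈ F, 0 < p n ∧ p n < 1) :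
    ∑ T ∈ F.powerset, bern p F T * Real.exp (∑ n ∈ T, c n) ≤ Real.exp (∑ n ∈ F, p n * (Real.exp (c n) - 1)) := by
  classical
  have h1 := Finset.prod_add (fun n => p n * Real.exp (c n)) (fun n => 1 - p n) F
  have h2 : ∑ T ∈ F.powerset, bern p F T * Real.exp (∑ n ∈ T, c n) =
      ∏ n ∈ F, (p n * Real.exp (c n) + (1 - p n)) := by
    rw [h1]
    refine sum_congr rfl (fun T hT => ?_)
    rw [bern_eq p (mem_powerset.1 hT), prod_mul_distrib, Real.exp_sum]
    ring
  rw [h2, Real.exp_sum]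
  refine prod_le_prod (fun n hn => ?_) (fun n hn => ?_)
  · have h3 := hp n hn
    have h4 := Real.exp_pos (c n)
    nlinarith [mul_pos h3.1 h4]
  · have h3 := Real.add_one_le_exp (p n * (Real.exp (c n) - 1))
    linarith

section

variable {Ω : Type} [MeasurableSpace Ω] {μ : Measure Ω} [IsProbabilityMeasure μ] {A : Ω → Set ℕ}

theorem mean_eq (hA : IsRandomSet A) (F : Finset ℕ) (c : ℕ → ℝ) :
    ∑ T ∈ F.powerset, lawOn μ A F T * ∑ n ∈ T, c n = ∑ n ∈ F, c n * μ.real {ω | n ∈ A ω} := by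
  classical
  have h1 : ∀ T ∈ F.powerset, lawOn μ A F T * ∑ n ∈ T, c n = ∑ n ∈ F, if n ∈ T then c n * lawOn μ A F T else 0 := by
    intro T hT
    rw [← sum_filter, filter_mem_eq_inter, inter_eq_right.2 (mem_powerset.1 hT), mul_sum]
    exact sum_congr rfl (fun n _ => mul_comm _ _)
  rw [sum_congr rfl h1, sum_comm]
  refine sum_congr rfl (fun n hn => ?_)
  have h2 := real_event (μ := μ) hA F (fun T => n ∈ T)
  have h3 : {ω | n ∈ tr A F ω} = {ω | n ∈ A ω} := by
    ext ω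
    simp only [Set.mem_ofPred_eq, mem_tr]
    exact ⟨fun h => h.2, fun h => ⟨hn, h⟩⟩
  rw [h3] at h2
  rw [h2, mul_sum, ← sum_filter]

/-- The means, from the variational inequality. -/
theorem mean_le {p : ℕ → ℝ} {F : Finset ℕ} (hp : ∀ n ∈ F, 0 < p n ∧ p n < 1) (hA : IsRandomSet A) (c : ℕ → ℝ) :
    ∑ n ∈ F, c n * μ.real {ω | n ∈ A ω} ≤ relEnt p μ A F + ∑ n ∈ F, p n * (Real.exp (c n) - 1) := by
  have h1 := Pool.Agent.Q26.ME.t_DV p F hp Ω μ A hA (fun T => ∑ n ∈ T, c n)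
  rw [mean_eq hA F c] at h1
  refine h1.trans ?_
  have h2 : 0 < ∑ T ∈ F.powerset, bern p F T * Real.exp (∑ n ∈ T, c n) :=
    sum_pos (fun T _ => mul_pos (Pool.Agent.Q26.ME.bern_pos hp T) (Real.exp_pos _)) ⟨∅, empty_mem_powerset F⟩
  have h3 := Real.log_le_log h2 (gen_w p c F hp)
  rw [Real.log_exp] at h3
  linarith

/-- The positive parts. -/
theorem pos_part_le {p : ℕ → ℝ} {F : Finset ℕ} (hp : ∀ n ∈ F, 0 < p n ∧ p n < 1) (hA : IsRandomSet A) (c : ℕ → ℝ) :
    ∑ n ∈ F, max (c n * μ.real {ω | n ∈ A ω} - p n * (Real.exp (c n) - 1)) 0 ≤ relEnt p μ A F := by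
  classical
  have h1 := mean_le (μ := μ) hp hA (fun n => if 0 < c n * μ.real {ω | n ∈ A ω} - p n * (Real.exp (c n) - 1) then c n else 0)
  have h2 : ∀ n ∈ F, max (c n * μ.real {ω | n ∈ A ω} - p n * (Real.exp (c n) - 1)) 0 =
      (if 0 < c n * μ.real {ω | n ∈ A ω} - p n * (Real.exp (c n) - 1) then c n else 0) * μ.real {ω | n ∈ A ω} -
        p n * (Real.exp (if 0 < c n * μ.real {ω | n ∈ A ω} - p n * (Real.exp (c n) - 1) then c n else 0) - 1) := by
    intro n _
    split_ifs with h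
    · rw [max_eq_left h.le]
    · rw [max_eq_right (not_lt.1 h)]
      simp
  rw [sum_congr rfl h2, sum_sub_distrib]
  linarith

end

/-- Summation by parts. -/
theorem abel_id (θ g : ℕ → ℝ) (N : ℕ) : ∑ n ∈ range N, θ n * g n =
    θ N * ∑ n ∈ range N, g n + ∑ n ∈ range N, (θ n - θ (n + 1)) * ∑ m ∈ range (n + 1), g m := by
  induction N with
  | zero => simp
  | succ N ih =>
    rw [sum_range_succ, ih, sum_range_succ (fun n => (θ n - θ (n + 1)) * ∑ m ∈ range (n + 1), g m), sum_range_succ g N]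
    ring

theorem tail_le {θ d : ℕ → ℝ} (hθ : Antitone θ) (hθ0 : Tendsto θ atTop (𝓝 0)) (hd : Monotone d) (hd0 : ∀ n, 0 ≤ d n)
    (hs : Summable (fun n => (θ n - θ (n + 1)) * d (n + 1))) (N : ℕ) :
    θ N * d N ≤ ∑' n, (θ n - θ (n + 1)) * d (n + 1) := by
  have hw : ∀ n, 0 ≤ (θ n - θ (n + 1)) * d (n + 1) := fun n => mul_nonneg (sub_nonneg.2 (hθ (Nat.le_succ n))) (hd0 _)
  have h1 : ∀ M, N ≤ M → (θ N - θ M) * d N ≤ ∑' n, (θ n - θ (n + 1)) * d (n + 1) := by
    intro M hM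
    have h2 : (θ N - θ M) * d N ≤ ∑ n ∈ Ico N M, (θ n - θ (n + 1)) * d (n + 1) := by
      have h3 : θ N - θ M = ∑ n ∈ Ico N M, (θ n - θ (n + 1)) := by
        rw [sum_Ico_eq_sub _ hM, sum_range_sub', sum_range_sub']
        ring
      rw [h3, sum_mul]
      refine sum_le_sum (fun n hn => ?_)
      exact mul_le_mul_of_nonneg_left (hd ((mem_Ico.1 hn).1.trans (Nat.le_succ n))) (sub_nonneg.2 (hθ (Nat.le_succ n)))
    exact h2.trans (hs.sum_le_tsum _ (fun n _ => hw n))
  have h4 : Tendsto (fun M => (θ N - θ M) * d N) atTop (𝓝 ((θ N - 0) * d N)) :=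
    (tendsto_const_nhds.sub hθ0).mul_const _
  rw [sub_zero] at h4
  exact le_of_tendsto h4 (eventually_atTop.2 ⟨N, h1⟩)

/-- Summation by parts for series. -/
theorem abel {θ g d : ℕ → ℝ} (hθ : Antitone θ) (hθ0 : Tendsto θ atTop (𝓝 0)) (hθp : ∀ n, 0 ≤ θ n) (hg : ∀ n, 0 ≤ g n)
    (hd : Monotone d) (hd0 : ∀ n, 0 ≤ d n) {x₀ : ℕ} (hG : ∀ x, x₀ ≤ x → ∑ n ∈ range x, g n ≤ d x)
    (hs : Summable (fun n => (θ n - θ (n + 1)) * d (n + 1))) : Summable (fun n => θ n * g n) := by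
  obtain ⟨B, hB⟩ : ∃ B, B = ∑ n ∈ range x₀, g n := ⟨_, rfl⟩
  have hB0 : 0 ≤ B := by rw [hB]; exact sum_nonneg (fun n _ => hg n)
  have hmono : Monotone (fun x => ∑ n ∈ range x, g n) := fun x y h =>
    sum_le_sum_of_subset_of_nonneg (range_mono h) (fun n _ _ => hg n)
  have hG' : ∀ x, ∑ n ∈ range x, g n ≤ d x + B := by
    intro x
    rcases le_total x₀ x with h | h
    · have := hG x h
      linarith
    · have h1 : ∑ n ∈ range x, g n ≤ ∑ n ∈ range x₀, g n := hmono h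
      have := hd0 x
      rw [← hB] at h1
      linarith
  refine summable_of_sum_range_le (c := 2 * ∑' n, (θ n - θ (n + 1)) * d (n + 1) + θ 0 * B)
    (fun n => mul_nonneg (hθp n) (hg n)) (fun N => ?_)
  rw [abel_id]
  have h1 := tail_le hθ hθ0 hd hd0 hs N
  have hw : ∀ n, 0 ≤ (θ n - θ (n + 1)) * d (n + 1) := fun n => mul_nonneg (sub_nonneg.2 (hθ (Nat.le_succ n))) (hd0 _)
  have h2 : ∑ n ∈ range N, (θ n - θ (n + 1)) * ∑ m ∈ range (n + 1), g m ≤
      ∑ n ∈ range N, ((θ n - θ (n + 1)) * d (n + 1) + (θ n - θ (n + 1)) * B) := by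
    refine sum_le_sum (fun n _ => ?_)
    rw [← mul_add]
    exact mul_le_mul_of_nonneg_left (hG' _) (sub_nonneg.2 (hθ (Nat.le_succ n)))
  rw [sum_add_distrib, ← sum_mul, sum_range_sub'] at h2
  have h3 : ∑ n ∈ range N, (θ n - θ (n + 1)) * d (n + 1) ≤ ∑' n, (θ n - θ (n + 1)) * d (n + 1) :=
    hs.sum_le_tsum _ (fun n _ => hw n)
  have h4 := mul_le_mul_of_nonneg_left (hG' N) (hθp N)
  nlinarith

/-- A model with finite expected number of elements; `ℓ` is of the order of `-log q`. -/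
structure CModel (U : Set ℕ) (q ℓ : ℕ → ℝ) : Prop where
  pos : ∀ n ∈ U, 0 < q n
  lt_one : ∀ n ∈ U, q n < 1
  lpos : ∀ n, 0 < ℓ n
  mono : Monotone ℓ
  top : Tendsto ℓ atTop atTop
  upper : ∃ κ : ℝ, 0 < κ ∧ Summable (U.indicator (fun n => q n * Real.exp (κ * ℓ n)))
  lower : ∃ C : ℝ, ∀ᶠ n : ℕ in atTop, n ∈ U → -Real.log (q n) ≤ C * ℓ n
  dense : ∃ C : ℝ, ∀ᶠ n : ℕ in atTop, ∃ u ∈ U, n ≤ u ∧ ℓ u ≤ C * ℓ n

variable {U : Set ℕ} {q ℓ : ℕ → ℝ}

theorem sum_ind (f : ℕ → ℝ) (x : ℕ) : ∑ n ∈ ind U x, f n = ∑ n ∈ range x, U.indicator f n := by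
  classical
  unfold ind
  rw [sum_filter]
  exact sum_congr rfl (fun n _ => by rw [Set.indicator_apply])

theorem mem_ind {x n : ℕ} : n ∈ ind U x ↔ n < x ∧ n ∈ U := by
  classical
  unfold ind
  rw [mem_filter, mem_range]

theorem anti (h : CModel U q ℓ) : Antitone (fun n => 1 / ℓ n) := fun _ _ hab =>
  one_div_le_one_div_of_le (h.lpos _) (h.mono hab)

theorem lim0 (h : CModel U q ℓ) : Tendsto (fun n => 1 / ℓ n) atTop (𝓝 0) := by
  simp only [one_div]
  exact tendsto_inv_atTop_zero.comp h.top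

/-- Little information: finitely many elements. -/
theorem finite_of (h : CModel U q ℓ) {d : ℕ → ℝ} (hd : Monotone d) (hd0 : ∀ n, 0 ≤ d n)
    (hs : Summable (fun n => (1 / ℓ n - 1 / ℓ (n + 1)) * d (n + 1))) (Ω : Type) [MeasurableSpace Ω] (μ : Measure Ω)
    [IsProbabilityMeasure μ] (A : Ω → Set ℕ) (hA : IsRandomSet A)
    (hD : ∀ᶠ x : ℕ in atTop, relEnt q μ A (ind U x) ≤ d x) : ∀ᵐ ω ∂μ, (A ω ∩ U).Finite := by
  classical
  obtain ⟨κ, hκ, hsum⟩ := h.upper
  obtain ⟨x₀, hx₀⟩ := eventually_atTop.1 hD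
  obtain ⟨α, hα⟩ : ∃ α : ℕ → ℝ, α = fun n => μ.real {ω | n ∈ A ω} := ⟨_, rfl⟩
  have hα0 : ∀ n, 0 ≤ α n := fun n => by rw [hα]; exact measureReal_nonneg
  obtain ⟨g, hg⟩ : ∃ g : ℕ → ℝ, g = U.indicator (fun n => max (κ * ℓ n * α n - q n * (Real.exp (κ * ℓ n) - 1)) 0) := ⟨_, rfl⟩
  have hg0 : ∀ n, 0 ≤ g n := fun n => by
    rw [hg, Set.indicator_apply]
    split_ifs
    · exact le_max_right _ _
    · exact le_rfl
  have hG : ∀ x, x₀ ≤ x → ∑ n ∈ range x, g n ≤ d x := by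
    intro x hx
    refine le_trans ?_ (hx₀ x hx)
    rw [hg, ← sum_ind, hα]
    exact pos_part_le (fun n hn => ⟨h.pos n (mem_ind.1 hn).2, h.lt_one n (mem_ind.1 hn).2⟩) hA (fun n => κ * ℓ n)
  have h1 : Summable (fun n => 1 / ℓ n * g n) :=
    abel (anti h) (lim0 h) (fun n => (one_div_pos.2 (h.lpos n)).le) hg0 hd hd0 hG hs
  have h2 : Summable (U.indicator α) := by
    have h3 : Summable (fun n => κ⁻¹ * (1 / ℓ n * g n + 1 / ℓ 0 * U.indicator (fun n => q n * Real.exp (κ * ℓ n)) n)) :=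
      (h1.add (hsum.mul_left _)).mul_left _
    refine Summable.of_nonneg_of_le (fun n => Set.indicator_nonneg (fun n _ => hα0 n) n) (fun n => ?_) h3
    by_cases hn : n ∈ U
    · rw [Set.indicator_of_mem hn, Set.indicator_of_mem hn, hg, Set.indicator_of_mem hn, inv_mul_eq_div, le_div_iff₀ hκ]
      have h4 := h.lpos n
      have h5 : 1 / ℓ n * (κ * ℓ n * α n - q n * (Real.exp (κ * ℓ n) - 1)) ≤
          1 / ℓ n * max (κ * ℓ n * α n - q n * (Real.exp (κ * ℓ n) - 1)) 0 :=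
        mul_le_mul_of_nonneg_left (le_max_left _ _) (one_div_pos.2 h4).le
      have h6 : 1 / ℓ n * (κ * ℓ n * α n - q n * (Real.exp (κ * ℓ n) - 1)) =
          α n * κ - 1 / ℓ n * (q n * (Real.exp (κ * ℓ n) - 1)) := by
        field_simp
      have h7 : 1 / ℓ n * (q n * (Real.exp (κ * ℓ n) - 1)) ≤ 1 / ℓ 0 * (q n * Real.exp (κ * ℓ n)) := by
        have h8 : 0 ≤ Real.exp (κ * ℓ n) - 1 := by
          have := Real.one_le_exp (mul_nonneg hκ.le h4.le)
          linarith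
        refine mul_le_mul (anti h (Nat.zero_le n)) ?_ (mul_nonneg (h.pos n hn).le h8) (one_div_pos.2 (h.lpos 0)).le
        exact mul_le_mul_of_nonneg_left (by linarith) (h.pos n hn).le
      linarith
    · rw [Set.indicator_of_notMem hn, Set.indicator_of_notMem hn, hg, Set.indicator_of_notMem hn]
      simp
  have h3 : ∑' n, μ (if n ∈ U then {ω | n ∈ A ω} else ∅) ≠ ⊤ := by
    have h4 : ∀ n, μ (if n ∈ U then {ω | n ∈ A ω} else ∅) = ENNReal.ofReal (U.indicator α n) := by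
      intro n
      by_cases hn : n ∈ U
      · rw [if_pos hn, Set.indicator_of_mem hn, hα]
        change μ {ω | n ∈ A ω} = ENNReal.ofReal (μ.real {ω | n ∈ A ω})
        rw [measureReal_def, ENNReal.ofReal_toReal (measure_ne_top _ _)]
      · rw [if_neg hn, Set.indicator_of_notMem hn]
        simp
    simp only [h4]
    exact h2.tsum_ofReal_ne_top
  filter_upwards [ae_eventually_notMem h3] with ω hω
  obtain ⟨N, hN⟩ := eventually_atTop.1 hω
  refine (Set.finite_lt_nat N).subset (fun n hn => ?_)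
  by_contra hlt
  have h4 := hN n (not_lt.1 hlt)
  rw [if_pos hn.2] at h4
  exact h4 hn.1

/-- A bound for the relative entropy of Bernoulli laws. -/
theorem kl_le {a b : ℝ} (ha : 0 ≤ a) (ha1 : a ≤ 1) (hb : 0 < b) (hb1 : b < 1) :
    kl a b ≤ a * -Real.log b + -Real.log (1 - b) := by
  have h1 : a * Real.log (a / b) ≤ a * -Real.log b := by
    rcases ha.eq_or_lt with h | h
    · rw [← h]
      simp
    · rw [Real.log_div h.ne' hb.ne']
      have := Real.log_nonpos ha ha1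
      nlinarith
  have h2 : (1 - a) * Real.log ((1 - a) / (1 - b)) ≤ -Real.log (1 - b) := by
    have hlb : Real.log (1 - b) ≤ 0 := Real.log_nonpos (by linarith) (by linarith)
    rcases ha1.eq_or_lt with h | h
    · rw [h]
      simp only [sub_self, zero_mul]
      linarith
    · rw [Real.log_div (by linarith) (by linarith)]
      have h3 := Real.log_nonpos (show (0 : ℝ) ≤ 1 - a by linarith) (by linarith)
      nlinarith
  unfold kl
  linarith

/-- The next element of `U`. -/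
noncomputable def nx (U : Set ℕ) (m : ℕ) : ℕ := sInf {u | u ∈ U ∧ m ≤ u}

theorem nx_mem (hU : ∀ m : ℕ, ∃ u ∈ U, m ≤ u) (m : ℕ) : nx U m ∈ U ∧ m ≤ nx U m := by
  obtain ⟨u, h1, h2⟩ := hU m
  exact Nat.sInf_mem (s := {u | u ∈ U ∧ m ≤ u}) ⟨u, h1, h2⟩

theorem nx_le {m u : ℕ} (h1 : u ∈ U) (h2 : m ≤ u) : nx U m ≤ u := Nat.sInf_le ⟨h1, h2⟩

open Classical in
/-- The information which becomes available at the element `n` of `U`. -/
noncomputable def ee (U : Set ℕ) (d : ℕ → ℝ) (n : ℕ) : ℝ :=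
  ∑ m ∈ range (n + 1), if nx U m = n then d (m + 1) - d m else 0

theorem ee_nonneg {d : ℕ → ℝ} (hd : Monotone d) (n : ℕ) : 0 ≤ ee U d n := by
  refine sum_nonneg (fun m _ => ?_)
  split_ifs
  · exact sub_nonneg.2 (hd (Nat.le_succ m))
  · exact le_rfl

theorem sum_ee_le {d : ℕ → ℝ} (hd : Monotone d) (y : ℕ) : ∑ n ∈ range y, ee U d n ≤ d y - d 0 := by
  classical
  have hδ : ∀ m, 0 ≤ d (m + 1) - d m := fun m => sub_nonneg.2 (hd (Nat.le_succ m))
  have h1 : ∀ n ∈ range y, ee U d n ≤ ∑ m ∈ range y, if nx U m = n then d (m + 1) - d m else 0 := by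
    intro n hn
    unfold ee
    refine sum_le_sum_of_subset_of_nonneg (range_mono (by have := mem_range.1 hn; omega)) (fun m _ _ => ?_)
    split_ifs
    · exact hδ m
    · exact le_rfl
  refine (sum_le_sum h1).trans ?_
  rw [sum_comm]
  have h2 : ∀ m ∈ range y, (∑ n ∈ range y, if nx U m = n then d (m + 1) - d m else 0) ≤ d (m + 1) - d m := by
    intro m _
    rw [sum_ite_eq]
    split_ifs
    · exact le_rfl
    · exact hδ m
  refine (sum_le_sum h2).trans ?_
  rw [sum_range_sub]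

open Classical in
/-- The weights of the independent set with many elements. -/
noncomputable def al (U : Set ℕ) (ℓ d : ℕ → ℝ) (C : ℝ) (n₀ n : ℕ) : ℝ :=
  if n₀ ≤ n then min (1 / 2) (ee U d n / (2 * C * ℓ n)) else 0

theorem al_nonneg {d : ℕ → ℝ} (hd : Monotone d) (hl : ∀ n, 0 < ℓ n) {C : ℝ} (hC : 0 < C) (n₀ n : ℕ) :
    0 ≤ al U ℓ d C n₀ n := by
  unfold al
  split_ifs
  · exact le_min (by norm_num) (div_nonneg (ee_nonneg hd n) (mul_nonneg (by linarith) (hl n).le))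
  · exact le_rfl

theorem al_le_half (d : ℕ → ℝ) (C : ℝ) (n₀ n : ℕ) : al U ℓ d C n₀ n ≤ 1 / 2 := by
  unfold al
  split_ifs
  · exact min_le_left _ _
  · norm_num

theorem al_le {d : ℕ → ℝ} (hd : Monotone d) (hl : ∀ n, 0 < ℓ n) {C : ℝ} (hC : 0 < C) (n₀ n : ℕ) :
    al U ℓ d C n₀ n * (C * ℓ n) ≤ ee U d n / 2 := by
  have h1 : 0 < C * ℓ n := mul_pos hC (hl n)
  unfold al
  split_ifs
  · refine (mul_le_mul_of_nonneg_right (min_le_right _ _) h1.le).trans (le_of_eq ?_)
    have h2 := (hl n).ne'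
    field_simp
  · rw [zero_mul]
    have := ee_nonneg (U := U) hd n
    linarith

theorem summable_w {θ d : ℕ → ℝ} (hθp : ∀ n, 0 ≤ θ n) (hθ : Antitone θ) (hd : Monotone d) (hd0 : ∀ n, 0 ≤ d n)
    (hs : Summable (fun n => θ n * (d (n + 1) - d n))) : Summable (fun n => (θ n - θ (n + 1)) * d (n + 1)) := by
  have hδ : ∀ m, 0 ≤ d (m + 1) - d m := fun m => sub_nonneg.2 (hd (Nat.le_succ m))
  refine summable_of_sum_range_le (c := (∑' n, θ n * (d (n + 1) - d n)) + θ 0 * d 0)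
    (fun n => mul_nonneg (sub_nonneg.2 (hθ (Nat.le_succ n))) (hd0 _)) (fun N => ?_)
  have h1 := abel_id θ (fun n => d (n + 1) - d n) N
  have h2 : ∑ n ∈ range N, θ n * (d (n + 1) - d n) ≤ ∑' n, θ n * (d (n + 1) - d n) :=
    hs.sum_le_tsum _ (fun n _ => mul_nonneg (hθp n) (hδ n))
  simp only [sum_range_sub] at h1
  have h3 : ∑ n ∈ range N, (θ n - θ (n + 1)) * (d (n + 1) - d 0) =
      ∑ n ∈ range N, (θ n - θ (n + 1)) * d (n + 1) - (θ 0 - θ N) * d 0 := by
    rw [← sum_range_sub', sum_mul, ← sum_sub_distrib]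
    exact sum_congr rfl (fun n _ => by ring)
  rw [h3] at h1
  have h4 := mul_nonneg (hθp N) (hd0 N)
  linarith

/-- The weights have infinite sum. -/
theorem not_summable_al (h : CModel U q ℓ) {d : ℕ → ℝ} (hd : Monotone d) (hd0 : ∀ n, 0 ≤ d n)
    (hs : ¬ Summable (fun n => (1 / ℓ n - 1 / ℓ (n + 1)) * d (n + 1))) (hU : ∀ m : ℕ, ∃ u ∈ U, m ≤ u) {C : ℝ}
    (hC : 0 < C) (n₀ : ℕ) : ¬ Summable (U.indicator (al U ℓ d C n₀)) := by
  classical
  intro hsum
  apply hs
  have hδ : ∀ m, 0 ≤ d (m + 1) - d m := fun m => sub_nonneg.2 (hd (Nat.le_succ m))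
  obtain ⟨C', hC'⟩ := h.dense
  -- the information at `n`
  have h1 : Summable (fun n => U.indicator (fun n => ee U d n / ℓ n) n) := by
    have h2 : ∀ᶠ n : ℕ in atTop, U.indicator (al U ℓ d C n₀) n < 1 / 2 :=
      hsum.tendsto_atTop_zero.eventually (gt_mem_nhds (by norm_num))
    refine Summable.of_norm_bounded_eventually_nat (hsum.mul_left (2 * C)) ?_
    filter_upwards [h2, eventually_ge_atTop n₀] with n h3 h4
    by_cases hn : n ∈ U
    · rw [Set.indicator_of_mem hn] at h3 ⊢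
      rw [Set.indicator_of_mem hn]
      unfold al at h3 ⊢
      rw [if_pos h4] at h3 ⊢
      rcases min_lt_iff.1 h3 with h5 | h5
      · exact absurd h5 (lt_irrefl _)
      · rw [min_eq_right h5.le, Real.norm_of_nonneg (div_nonneg (ee_nonneg hd n) (h.lpos n).le)]
        have h6 := (h.lpos n).ne'
        apply le_of_eq
        field_simp
    · rw [Set.indicator_of_notMem hn, Set.indicator_of_notMem hn]
      simp
  have h2 : Summable (fun m => (d (m + 1) - d m) / ℓ (nx U m)) := by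
    refine summable_of_sum_range_le (c := ∑' n, U.indicator (fun n => ee U d n / ℓ n) n)
      (fun m => div_nonneg (hδ m) (h.lpos _).le) (fun M => ?_)
    obtain ⟨N, hN⟩ : ∃ N : ℕ, ∀ m ∈ range M, nx U m < N := by
      refine ⟨∑ m ∈ range M, (nx U m + 1), fun m hm => ?_⟩
      have h3 := single_le_sum (f := fun m => nx U m + 1) (fun i _ => Nat.zero_le _) hm
      exact Nat.lt_of_succ_le h3
    have h3 : ∑ m ∈ range M, (d (m + 1) - d m) / ℓ (nx U m) ≤
        ∑ n ∈ range N, U.indicator (fun n => ee U d n / ℓ n) n := by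
      have h4 : ∀ m ∈ range M, (d (m + 1) - d m) / ℓ (nx U m) =
          ∑ n ∈ range N, if nx U m = n then (d (m + 1) - d m) / ℓ n else 0 := by
        intro m hm
        rw [sum_ite_eq, if_pos (mem_range.2 (hN m hm))]
      rw [sum_congr rfl h4, sum_comm]
      refine sum_le_sum (fun n hn => ?_)
      by_cases hnU : n ∈ U
      · rw [Set.indicator_of_mem hnU]
        unfold ee
        rw [sum_div]
        have h5 : ∀ m ∈ range M, (if nx U m = n then (d (m + 1) - d m) / ℓ n else 0) =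
            if m ∈ range (n + 1) then (if nx U m = n then d (m + 1) - d m else 0) / ℓ n else 0 := by
          intro m _
          by_cases h6 : nx U m = n
          · have h7 := (nx_mem hU m).2
            rw [if_pos h6, if_pos (mem_range.2 (by omega)), if_pos h6]
          · rw [if_neg h6, if_neg h6, zero_div, ite_self]
        rw [sum_congr rfl h5, ← sum_filter]
        refine sum_le_sum_of_subset_of_nonneg (fun m hm => (mem_filter.1 hm).2) (fun m _ _ => ?_)
        refine div_nonneg ?_ (h.lpos n).le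
        split_ifs
        · exact hδ m
        · exact le_rfl
      · rw [Set.indicator_of_notMem hnU]
        refine le_of_eq (sum_eq_zero (fun m _ => ?_))
        rw [if_neg]
        intro h6
        exact hnU (h6 ▸ (nx_mem hU m).1)
    refine h3.trans (h1.sum_le_tsum _ (fun n _ => ?_))
    exact Set.indicator_nonneg (fun n _ => div_nonneg (ee_nonneg hd n) (h.lpos n).le) n
  refine summable_w (fun n => (one_div_pos.2 (h.lpos n)).le) (anti h) hd hd0 ?_
  refine Summable.of_norm_bounded_eventually_nat (h2.mul_left C') ?_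
  filter_upwards [hC'] with m hm
  obtain ⟨u, hu, hmu, hlu⟩ := hm
  rw [Real.norm_of_nonneg (mul_nonneg (one_div_pos.2 (h.lpos m)).le (hδ m))]
  have h3 : ℓ (nx U m) ≤ C' * ℓ m := (h.mono (nx_le hu hmu)).trans hlu
  have h4 : 1 / ℓ m ≤ C' / ℓ (nx U m) := by
    rw [div_le_div_iff₀ (h.lpos m) (h.lpos _)]
    linarith
  calc 1 / ℓ m * (d (m + 1) - d m) ≤ C' / ℓ (nx U m) * (d (m + 1) - d m) := mul_le_mul_of_nonneg_right h4 (hδ m)
    _ = C' * ((d (m + 1) - d m) / ℓ (nx U m)) := by ring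

theorem unbounded {θ d : ℕ → ℝ} (hθ : Antitone θ) (hθp : ∀ n, 0 ≤ θ n) (hd : Monotone d) (hd0 : ∀ n, 0 ≤ d n)
    (hs : ¬ Summable (fun n => (θ n - θ (n + 1)) * d (n + 1))) (K : ℝ) : ∀ᶠ y : ℕ in atTop, K ≤ d y := by
  by_contra hne
  apply hs
  have hb : ∀ n, d n ≤ K := by
    intro n
    by_contra hlt
    apply hne
    filter_upwards [eventually_ge_atTop n] with y hy
    exact (not_le.1 hlt).le.trans (hd hy)
  refine summable_of_sum_range_le (c := θ 0 * K)
    (fun n => mul_nonneg (sub_nonneg.2 (hθ (Nat.le_succ n))) (hd0 _)) (fun N => ?_)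
  have h1 : ∑ n ∈ range N, (θ n - θ (n + 1)) * d (n + 1) ≤ ∑ n ∈ range N, (θ n - θ (n + 1)) * K :=
    sum_le_sum (fun n _ => mul_le_mul_of_nonneg_left (hb _) (sub_nonneg.2 (hθ (Nat.le_succ n))))
  rw [← sum_mul, sum_range_sub'] at h1
  have h2 := mul_nonneg (hθp N) ((hd0 0).trans (hb 0))
  nlinarith

theorem neg_log_le {a : ℝ} (h0 : 0 < a) (h1 : a ≤ 1 / 2) : -Real.log (1 - a) ≤ 2 * a := by
  have h2 := Real.one_sub_inv_le_log_of_pos (show (0 : ℝ) < 1 - a by linarith)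
  have h3 : (1 - a)⁻¹ ≤ 1 + 2 * a := by
    rw [inv_le_comm₀ (by linarith) (by linarith), inv_eq_one_div, div_le_iff₀ (by linarith)]
    nlinarith
  linarith

/-- The entropy of the model is negligible. -/
theorem bound_log (h : CModel U q ℓ) : ∃ K : ℝ, ∀ y : ℕ, ∑ n ∈ ind U y, -Real.log (1 - q n) ≤ K := by
  obtain ⟨κ, hκ, hsum⟩ := h.upper
  have h1 : Summable (U.indicator q) := by
    refine Summable.of_nonneg_of_le (fun n => Set.indicator_nonneg (fun n hn => (h.pos n hn).le) n) (fun n => ?_) hsum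
    by_cases hn : n ∈ U
    · rw [Set.indicator_of_mem hn, Set.indicator_of_mem hn]
      exact le_mul_of_one_le_right (h.pos n hn).le (Real.one_le_exp (mul_nonneg hκ.le (h.lpos n).le))
    · rw [Set.indicator_of_notMem hn, Set.indicator_of_notMem hn]
  have h2 : Summable (U.indicator (fun n => -Real.log (1 - q n))) := by
    have h3 : ∀ᶠ n : ℕ in atTop, U.indicator q n < 1 / 2 :=
      h1.tendsto_atTop_zero.eventually (gt_mem_nhds (by norm_num))
    refine Summable.of_norm_bounded_eventually_nat (h1.mul_left 2) ?_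
    filter_upwards [h3] with n h4
    by_cases hn : n ∈ U
    · rw [Set.indicator_of_mem hn] at h4 ⊢
      rw [Set.indicator_of_mem hn]
      have h5 := h.pos n hn
      rw [Real.norm_of_nonneg (neg_nonneg.2 (Real.log_nonpos (by linarith) (by linarith)))]
      exact neg_log_le h5 h4.le
    · rw [Set.indicator_of_notMem hn, Set.indicator_of_notMem hn]
      simp
  refine ⟨∑' n, U.indicator (fun n => -Real.log (1 - q n)) n, fun y => ?_⟩
  rw [sum_ind]
  refine h2.sum_le_tsum _ (fun n _ => Set.indicator_nonneg (fun n hn => ?_) n)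
  have h5 := h.pos n hn
  have h6 := h.lt_one n hn
  exact neg_nonneg.2 (Real.log_nonpos (by linarith) (by linarith))

/-- Much information: infinitely many elements are possible. -/
theorem infinite_of (h : CModel U q ℓ) {d : ℕ → ℝ} (hd : Monotone d) (hd0 : ∀ n, 0 ≤ d n)
    (hs : ¬ Summable (fun n => (1 / ℓ n - 1 / ℓ (n + 1)) * d (n + 1))) :
    ∃ (Ω : Type) (_ : MeasurableSpace Ω) (μ : Measure Ω) (_ : IsProbabilityMeasure μ) (A : Ω → Set ℕ), IsRandomSet A ∧
      (∀ᶠ x : ℕ in atTop, relEnt q μ A (ind U x) ≤ d x) ∧ ∀ᵐ ω ∂μ, (A ω ∩ U).Infinite := by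
  classical
  have hU : ∀ m : ℕ, ∃ u ∈ U, m ≤ u := by
    intro m
    obtain ⟨C', hC'⟩ := h.dense
    obtain ⟨n, ⟨u, hu, hnu, -⟩, hmn⟩ := (hC'.and (eventually_ge_atTop m)).exists
    exact ⟨u, hu, hmn.trans hnu⟩
  obtain ⟨C₁, hC₁⟩ := h.lower
  obtain ⟨C, hC⟩ : ∃ C, C = max C₁ 1 := ⟨_, rfl⟩
  have hC0 : 0 < C := by rw [hC]; exact lt_of_lt_of_le one_pos (le_max_right _ _)
  obtain ⟨n₀, hn₀⟩ := eventually_atTop.1 hC₁
  obtain ⟨K, hK⟩ := bound_log h
  obtain ⟨r, hr⟩ : ∃ r : Unit → ℕ → ℝ, r = fun _ n => al U ℓ d C n₀ n := ⟨_, rfl⟩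
  have hr0 : ∀ x n, 0 ≤ r x n ∧ r x n ≤ 1 := by
    intro x n
    rw [hr]
    exact ⟨al_nonneg hd h.lpos hC0 n₀ n, (al_le_half d C n₀ n).trans (by norm_num)⟩
  have hrm : ∀ n, Measurable (fun x => r x n) := fun n => measurable_of_countable _
  obtain ⟨Ω, m, μ, hμ, A, π, hM⟩ := Pool.Agent.Q285.ME.t_CON Unit (Measure.dirac ()) r hrm hr0
  refine ⟨Ω, m, μ, hμ, A, hM.rand, ?_, ?_⟩
  · filter_upwards [unbounded (anti h) (fun n => (one_div_pos.2 (h.lpos n)).le) hd hd0 hs (2 * K)] with y hy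
    have hF : ∀ n ∈ ind U y, 0 < q n ∧ q n < 1 := fun n hn => ⟨h.pos n (mem_ind.1 hn).2, h.lt_one n (mem_ind.1 hn).2⟩
    have h1 := (Pool.Agent.Q224.ME.t_ENM Unit (Measure.dirac ()) r hrm hr0 Ω μ A π hM q (ind U y) hF).2
    rw [integral_dirac] at h1
    refine h1.trans ?_
    have h2 : ∑ n ∈ ind U y, kl (r () n) (q n) ≤ ∑ n ∈ ind U y, (ee U d n / 2 + -Real.log (1 - q n)) := by
      refine sum_le_sum (fun n hn => ?_)
      have h3 := kl_le (hr0 () n).1 (hr0 () n).2 (hF n hn).1 (hF n hn).2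
      refine h3.trans (add_le_add_left ?_ _)
      have h4 := al_le (U := U) hd h.lpos hC0 n₀ n
      rw [hr]
      by_cases hn0 : n₀ ≤ n
      · refine le_trans (mul_le_mul_of_nonneg_left ?_ (al_nonneg hd h.lpos hC0 n₀ n)) h4
        refine (hn₀ n hn0 (mem_ind.1 hn).2).trans (mul_le_mul_of_nonneg_right ?_ (h.lpos n).le)
        rw [hC]
        exact le_max_left _ _
      · have h5 : al U ℓ d C n₀ n = 0 := by
          unfold al
          rw [if_neg hn0]
        simp only [h5, zero_mul]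
        have := ee_nonneg (U := U) hd n
        linarith
    rw [sum_add_distrib] at h2
    have h3 : ∑ n ∈ ind U y, ee U d n / 2 ≤ (d y - d 0) / 2 := by
      rw [← sum_div]
      refine div_le_div_of_nonneg_right ?_ (by norm_num)
      refine le_trans ?_ (sum_ee_le (U := U) hd y)
      exact sum_le_sum_of_subset_of_nonneg (filter_subset _ _) (fun n _ _ => ee_nonneg hd n)
    have h4 := hK y
    have h5 := hd0 0
    linarith
  · obtain ⟨Λ, hΛ⟩ : ∃ Λ : ℕ → ℝ, Λ = fun N => ∑ n ∈ ind U N, al U ℓ d C n₀ n := ⟨_, rfl⟩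
    have hΛ' : ∀ N, Λ N = ∑ n ∈ range N, U.indicator (al U ℓ d C n₀) n := fun N => by rw [hΛ]; exact sum_ind _ N
    have hi0 : ∀ n, 0 ≤ U.indicator (al U ℓ d C n₀) n := fun n =>
      Set.indicator_nonneg (fun n _ => al_nonneg hd h.lpos hC0 n₀ n) n
    have hmono : Monotone Λ := by
      intro a b hab
      rw [hΛ', hΛ']
      exact sum_le_sum_of_subset_of_nonneg (range_mono hab) (fun n _ _ => hi0 n)
    have htop : Tendsto Λ atTop atTop := by
      have h1 := (not_summable_iff_tendsto_nat_atTop_of_nonneg hi0).1 (not_summable_al h hd hd0 hs hU hC0 n₀)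
      exact h1.congr (fun N => (hΛ' N).symm)
    have hstep : ∀ n, Λ (n + 1) ≤ Λ n + 1 := by
      intro n
      rw [hΛ', hΛ', sum_range_succ]
      have h1 : U.indicator (al U ℓ d C n₀) n ≤ 1 := by
        rw [Set.indicator_apply]
        split_ifs
        · exact (al_le_half d C n₀ n).trans (by norm_num)
        · norm_num
      linarith
    have h1 := Pool.Agent.Q96.ME.t_SLL Unit (Measure.dirac ()) r hrm hr0 Ω μ A π hM U Λ 1 hmono htop hstep (fun _ => 1) (by
      refine Eventually.of_forall (fun x => ?_)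
      refine Tendsto.congr' ?_ tendsto_const_nhds
      filter_upwards [htop.eventually_gt_atTop 0] with N hN
      rw [hr]
      change 1 = (∑ n ∈ ind U N, al U ℓ d C n₀ n) / Λ N
      rw [hΛ] at hN ⊢
      exact (div_self hN.ne').symm)
    filter_upwards [h1] with ω hω hfin
    have h2 : Tendsto (fun N : ℕ => (cnt U (A ω) N : ℝ)) atTop atTop := by
      have h3 := (hω.pos_mul_atTop one_pos htop)
      refine h3.congr' ?_
      filter_upwards [htop.eventually_gt_atTop 0] with N hN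
      field_simp
    obtain ⟨N, hN⟩ := (h2.eventually_gt_atTop ((hfin.toFinset.card : ℕ) : ℝ)).exists
    have h4 : cnt U (A ω) N ≤ hfin.toFinset.card := by
      unfold cnt
      refine card_le_card (fun n hn => ?_)
      rw [mem_filter, mem_ind] at hn
      rw [Set.Finite.mem_toFinset]
      exact ⟨hn.2, hn.1.2⟩
    have h5 : (cnt U (A ω) N : ℝ) ≤ hfin.toFinset.card := by exact_mod_cast h4
    linarith

/-- **The threshold.** -/
theorem threshold (h : CModel U q ℓ) {d : ℕ → ℝ} (hd : Monotone d) (hd0 : ∀ n, 0 ≤ d n) :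
    ((∀ (Ω : Type) [MeasurableSpace Ω] (μ : Measure Ω) [IsProbabilityMeasure μ] (A : Ω → Set ℕ), IsRandomSet A →
      (∀ᶠ x : ℕ in atTop, relEnt q μ A (ind U x) ≤ d x) → ∀ᵐ ω ∂μ, (A ω ∩ U).Finite) ↔
      Summable (fun n => (1 / ℓ n - 1 / ℓ (n + 1)) * d (n + 1))) ∧
    (¬ Summable (fun n => (1 / ℓ n - 1 / ℓ (n + 1)) * d (n + 1)) →
      ∃ (Ω : Type) (_ : MeasurableSpace Ω) (μ : Measure Ω) (_ : IsProbabilityMeasure μ) (A : Ω → Set ℕ), IsRandomSet A ∧
        (∀ᶠ x : ℕ in atTop, relEnt q μ A (ind U x) ≤ d x) ∧ ∀ᵐ ω ∂μ, (A ω ∩ U).Infinite) := by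
  refine ⟨⟨fun hall => ?_, fun hs Ω _ μ _ A hA hD => finite_of h hd hd0 hs Ω μ A hA hD⟩, infinite_of h hd hd0⟩
  by_contra hs
  obtain ⟨Ω, m, μ, hμ, A, hA, hD, hinf⟩ := infinite_of h hd hd0 hs
  have h1 := hall Ω μ A hA hD
  obtain ⟨ω, h2, h3⟩ := (h1.and hinf).exists
  exact h3 h2

end Pool.Agent.Q290.CV
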