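import Pool.Agent.Q290.CV.Gen

/-!
# The threshold for models with polynomially small probabilities
-/

set_option autoImplicit false

namespace Pool.Agent.Q290.CV

open Finset MeasureTheory Filter Pool.Agent.Q120.ET Pool.Agent.Q120.ME
open scoped Topology

theorem relEnt_congr {Ω : Type} [MeasurableSpace Ω] (μ : Measure Ω) {A B : Ω → Set ℕ} {F : Finset ℕ} (p : ℕ → ℝ)
    (h : ∀ n ∈ F, ∀ ω, (n ∈ A ω ↔ n ∈ B ω)) : relEnt p μ A F = relEnt p μ B F := by
  have h1 : ∀ T, lawOn μ A F T = lawOn μ B F T := by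
    intro T
    unfold lawOn
    congr 1
    ext ω
    simp only [Set.mem_ofPred_eq]
    constructor
    · intro h2 n hn
      rw [← h n hn ω]
      exact h2 n hn
    · intro h2 n hn
      rw [h n hn ω]
      exact h2 n hn
  unfold relEnt
  simp only [h1]

theorem w_le (n : ℕ) (hn : 1 ≤ n) : 1 / Real.log ((n : ℝ) + 2) - 1 / Real.log (((n + 1 : ℕ) : ℝ) + 2) ≤
    1 / (((n + 1 : ℕ) : ℝ) * Real.log ((n + 1 : ℕ) : ℝ) ^ 2) := by
  push_cast
  have hn1 : (1 : ℝ) ≤ n := by exact_mod_cast hn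
  have h1 : 0 < Real.log ((n : ℝ) + 1) := Real.log_pos (by linarith)
  have h2 : Real.log ((n : ℝ) + 1) ≤ Real.log ((n : ℝ) + 2) := Real.log_le_log (by linarith) (by linarith)
  have h3 : Real.log ((n : ℝ) + 2) ≤ Real.log ((n : ℝ) + 1 + 2) := Real.log_le_log (by linarith) (by linarith)
  have h4 : Real.log ((n : ℝ) + 1 + 2) - Real.log ((n : ℝ) + 2) ≤ 1 / ((n : ℝ) + 1) := by
    rw [← Real.log_div (by linarith) (by linarith)]
    have h5 := Real.log_le_sub_one_of_pos (show (0 : ℝ) < ((n : ℝ) + 1 + 2) / ((n : ℝ) + 2) by positivity)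
    refine h5.trans ?_
    rw [div_sub_one (by linarith), div_le_div_iff₀ (by linarith) (by linarith)]
    linarith
  rw [div_sub_div _ _ (by linarith) (by linarith), div_le_div_iff₀ (by nlinarith) (by positivity)]
  have h6 : (1 * Real.log ((n : ℝ) + 1 + 2) - Real.log ((n : ℝ) + 2) * 1) * ((n : ℝ) + 1) ≤ 1 := by
    rw [le_div_iff₀ (by linarith)] at h4
    linarith
  have h7 : Real.log ((n : ℝ) + 1) ^ 2 ≤ Real.log ((n : ℝ) + 2) * Real.log ((n : ℝ) + 1 + 2) := by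
    rw [sq]
    exact mul_le_mul h2 (h2.trans h3) h1.le (h1.le.trans h2)
  have h8 : 0 ≤ Real.log ((n : ℝ) + 1) ^ 2 := by positivity
  calc (1 * Real.log ((n : ℝ) + 1 + 2) - Real.log ((n : ℝ) + 2) * 1) * (((n : ℝ) + 1) * Real.log ((n : ℝ) + 1) ^ 2)
      = ((1 * Real.log ((n : ℝ) + 1 + 2) - Real.log ((n : ℝ) + 2) * 1) * ((n : ℝ) + 1)) * Real.log ((n : ℝ) + 1) ^ 2 := by ring
    _ ≤ 1 * Real.log ((n : ℝ) + 1) ^ 2 := mul_le_mul_of_nonneg_right h6 h8
    _ ≤ 1 * (Real.log ((n : ℝ) + 2) * Real.log ((n : ℝ) + 1 + 2)) := by linarith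

theorem le_w (n : ℕ) (hn : 1 ≤ n) : 1 / (((n + 1 : ℕ) : ℝ) * Real.log ((n + 1 : ℕ) : ℝ) ^ 2) ≤
    12 * (1 / Real.log ((n : ℝ) + 2) - 1 / Real.log (((n + 1 : ℕ) : ℝ) + 2)) := by
  push_cast
  have hn1 : (1 : ℝ) ≤ n := by exact_mod_cast hn
  have h1 : 0 < Real.log ((n : ℝ) + 1) := Real.log_pos (by linarith)
  have h2 : Real.log ((n : ℝ) + 1) ≤ Real.log ((n : ℝ) + 2) := Real.log_le_log (by linarith) (by linarith)
  have h3 : Real.log ((n : ℝ) + 2) ≤ Real.log ((n : ℝ) + 1 + 2) := Real.log_le_log (by linarith) (by linarith)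
  have h4 : 1 / (3 * ((n : ℝ) + 1)) ≤ Real.log ((n : ℝ) + 1 + 2) - Real.log ((n : ℝ) + 2) := by
    rw [← Real.log_div (by linarith) (by linarith)]
    have h5 := Real.one_sub_inv_le_log_of_pos (show (0 : ℝ) < ((n : ℝ) + 1 + 2) / ((n : ℝ) + 2) by positivity)
    refine le_trans ?_ h5
    rw [inv_div, one_sub_div (by linarith), div_le_div_iff₀ (by linarith) (by linarith)]
    nlinarith
  have h5 : Real.log ((n : ℝ) + 1 + 2) ≤ 2 * Real.log ((n : ℝ) + 1) := by
    rw [← Real.log_rpow (by linarith)]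
    apply Real.log_le_log (by linarith)
    norm_num
    nlinarith
  have h6 : Real.log ((n : ℝ) + 2) * Real.log ((n : ℝ) + 1 + 2) ≤ 4 * Real.log ((n : ℝ) + 1) ^ 2 := by
    have h7 : Real.log ((n : ℝ) + 2) ≤ 2 * Real.log ((n : ℝ) + 1) := h3.trans h5
    have h8 := mul_le_mul h7 h5 (by linarith) (by linarith)
    linarith
  rw [div_sub_div _ _ (by linarith) (by linarith), ← mul_div_assoc, div_le_div_iff₀ (by positivity) (by nlinarith)]
  have h7 : 1 ≤ 3 * ((1 * Real.log ((n : ℝ) + 1 + 2) - Real.log ((n : ℝ) + 2) * 1) * ((n : ℝ) + 1)) := by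
    rw [div_le_iff₀ (by linarith)] at h4
    linarith
  have h8 : 0 ≤ Real.log ((n : ℝ) + 1) ^ 2 := by positivity
  calc 1 * (Real.log ((n : ℝ) + 2) * Real.log ((n : ℝ) + 1 + 2)) ≤ (4 * Real.log ((n : ℝ) + 1) ^ 2) * 1 := by linarith
    _ ≤ (4 * Real.log ((n : ℝ) + 1) ^ 2) *
        (3 * ((1 * Real.log ((n : ℝ) + 1 + 2) - Real.log ((n : ℝ) + 2) * 1) * ((n : ℝ) + 1))) :=
      mul_le_mul_of_nonneg_left h7 (by linarith)
    _ = 12 * (1 * Real.log ((n : ℝ) + 1 + 2) - Real.log ((n : ℝ) + 2) * 1) * (((n : ℝ) + 1) * Real.log ((n : ℝ) + 1) ^ 2) := by ring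

/-- The condition in terms of `∑ d n / (n (log n) ^ 2)`. -/
theorem sum_log_iff {d : ℕ → ℝ} (hd0 : ∀ n, 0 ≤ d n) :
    Summable (fun n : ℕ => (1 / Real.log ((n : ℝ) + 2) - 1 / Real.log (((n + 1 : ℕ) : ℝ) + 2)) * d (n + 1)) ↔
      Summable (fun n : ℕ => d n / (n * Real.log n ^ 2)) := by
  rw [← summable_nat_add_iff (f := fun n : ℕ => d n / (n * Real.log n ^ 2)) 1]
  have hpos : ∀ n : ℕ, 0 ≤ d (n + 1) / (((n + 1 : ℕ) : ℝ) * Real.log ((n + 1 : ℕ) : ℝ) ^ 2) := fun n =>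
    div_nonneg (hd0 _) (by positivity)
  have hw : ∀ n : ℕ, 0 ≤ (1 / Real.log ((n : ℝ) + 2) - 1 / Real.log (((n + 1 : ℕ) : ℝ) + 2)) * d (n + 1) := by
    intro n
    refine mul_nonneg (sub_nonneg.2 ?_) (hd0 _)
    refine one_div_le_one_div_of_le (Real.log_pos (by have : (0 : ℝ) ≤ n := Nat.cast_nonneg n
                                                      linarith)) ?_
    refine Real.log_le_log (by positivity) ?_
    push_cast
    linarith
  constructor
  · intro h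
    refine Summable.of_norm_bounded_eventually_nat (h.mul_left 12) ?_
    filter_upwards [eventually_ge_atTop 1] with n hn
    rw [Real.norm_of_nonneg (hpos n)]
    have h1 := mul_le_mul_of_nonneg_right (le_w n hn) (hd0 (n + 1))
    refine le_trans (le_of_eq ?_) (h1.trans (le_of_eq ?_))
    · rw [div_mul_eq_mul_div, one_mul]
    · ring
  · intro h
    refine Summable.of_norm_bounded_eventually_nat h ?_
    filter_upwards [eventually_ge_atTop 1] with n hn
    rw [Real.norm_of_nonneg (hw n)]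
    have h1 := mul_le_mul_of_nonneg_right (w_le n hn) (hd0 (n + 1))
    refine h1.trans (le_of_eq ?_)
    rw [div_mul_eq_mul_div, one_mul]

/-- The model. -/
theorem log_model {U : Set ℕ} {q : ℕ → ℝ} (hU : ∀ᶠ n : ℕ in atTop, ∃ u ∈ U, n ≤ u ∧ u ≤ 2 * n)
    (hq : ∀ n ∈ U, 0 < q n ∧ q n < 1) {c C : ℝ} (hc : 1 < c)
    (h : ∀ᶠ n : ℕ in atTop, n ∈ U → (n : ℝ) ^ (-C) ≤ q n ∧ q n ≤ (n : ℝ) ^ (-c)) :
    CModel U q (fun n => Real.log ((n : ℝ) + 2)) where
  pos n hn := (hq n hn).1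
  lt_one n hn := (hq n hn).2
  lpos n := Real.log_pos (by have : (0 : ℝ) ≤ n := Nat.cast_nonneg n
                             linarith)
  mono := fun a b hab => Real.log_le_log (by positivity) (by
    have : (a : ℝ) ≤ b := by exact_mod_cast hab
    linarith)
  top := Real.tendsto_log_atTop.comp (tendsto_atTop_add_const_right _ _ tendsto_natCast_atTop_atTop)
  upper := by
    refine ⟨(c - 1) / 2, by linarith, ?_⟩
    have h1 : Summable (fun n : ℕ => (3 : ℝ) ^ ((c - 1) / 2) * (n : ℝ) ^ (-((c + 1) / 2))) :=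
      (Real.summable_nat_rpow.2 (by linarith)).mul_left _
    refine Summable.of_norm_bounded_eventually_nat h1 ?_
    filter_upwards [h, eventually_ge_atTop 1] with n h2 h3
    have h4 : (1 : ℝ) ≤ n := by exact_mod_cast h3
    by_cases hn : n ∈ U
    · rw [Set.indicator_of_mem hn, Real.norm_of_nonneg (mul_nonneg (hq n hn).1.le (Real.exp_pos _).le)]
      have h5 : Real.exp ((c - 1) / 2 * Real.log ((n : ℝ) + 2)) = ((n : ℝ) + 2) ^ ((c - 1) / 2) := by
        rw [Real.rpow_def_of_pos (by linarith), mul_comm]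
      rw [h5]
      have h6 : ((n : ℝ) + 2) ^ ((c - 1) / 2) ≤ (3 * (n : ℝ)) ^ ((c - 1) / 2) :=
        Real.rpow_le_rpow (by linarith) (by linarith) (by linarith)
      rw [Real.mul_rpow (by norm_num) (by linarith)] at h6
      have h7 := mul_le_mul (h2 hn).2 h6 (by positivity) (by positivity)
      refine h7.trans (le_of_eq ?_)
      rw [mul_left_comm, ← Real.rpow_add (by linarith)]
      congr 2
      ring
    · rw [Set.indicator_of_notMem hn]
      simp only [norm_zero]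
      positivity
  lower := by
    refine ⟨|C|, ?_⟩
    filter_upwards [h, eventually_ge_atTop 1] with n h2 h3 hn
    have h4 : (1 : ℝ) ≤ n := by exact_mod_cast h3
    have h5 := Real.log_le_log (by positivity) (h2 hn).1
    rw [Real.log_rpow (by linarith)] at h5
    have h6 : Real.log (n : ℝ) ≤ Real.log ((n : ℝ) + 2) := Real.log_le_log (by linarith) (by linarith)
    have h7 : 0 ≤ Real.log (n : ℝ) := Real.log_nonneg h4
    have h8 : C * Real.log n ≤ |C| * Real.log n := mul_le_mul_of_nonneg_right (le_abs_self C) h7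
    have h9 : |C| * Real.log n ≤ |C| * Real.log ((n : ℝ) + 2) := mul_le_mul_of_nonneg_left h6 (abs_nonneg C)
    linarith
  dense := by
    refine ⟨2, ?_⟩
    filter_upwards [hU] with n hn
    obtain ⟨u, h1, h2, h3⟩ := hn
    refine ⟨u, h1, h2, ?_⟩
    have h4 : (u : ℝ) ≤ 2 * n := by exact_mod_cast h3
    have h5 : (0 : ℝ) ≤ n := Nat.cast_nonneg n
    have h6 : (0 : ℝ) ≤ u := Nat.cast_nonneg u
    rw [← Real.log_rpow (by linarith)]
    apply Real.log_le_log (by linarith)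
    norm_num
    nlinarith

/-- **The threshold.** -/
theorem log_threshold {U : Set ℕ} {q : ℕ → ℝ} (hU : ∀ᶠ n : ℕ in atTop, ∃ u ∈ U, n ≤ u ∧ u ≤ 2 * n)
    (hq : ∀ n ∈ U, 0 < q n ∧ q n < 1) {c C : ℝ} (hc : 1 < c)
    (h : ∀ᶠ n : ℕ in atTop, n ∈ U → (n : ℝ) ^ (-C) ≤ q n ∧ q n ≤ (n : ℝ) ^ (-c))
    {d : ℕ → ℝ} (hd : Monotone d) (hd0 : ∀ n, 0 ≤ d n) :
    ((∀ (Ω : Type) [MeasurableSpace Ω] (μ : Measure Ω) [IsProbabilityMeasure μ] (A : Ω → Set ℕ), IsRandomSet A →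
      (∀ᶠ x : ℕ in atTop, relEnt q μ A (ind U x) ≤ d x) → ∀ᵐ ω ∂μ, (A ω ∩ U).Finite) ↔
      Summable (fun n : ℕ => d n / (n * Real.log n ^ 2))) ∧
    (¬ Summable (fun n : ℕ => d n / (n * Real.log n ^ 2)) →
      ∃ (Ω : Type) (_ : MeasurableSpace Ω) (μ : Measure Ω) (_ : IsProbabilityMeasure μ) (A : Ω → Set ℕ), IsRandomSet A ∧
        (∀ᶠ x : ℕ in atTop, relEnt q μ A (ind U x) ≤ d x) ∧ ∀ᵐ ω ∂μ, (A ω ∩ U).Infinite) := by
  obtain ⟨h1, h2⟩ := threshold (log_model hU hq hc h) hd hd0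
  rw [sum_log_iff hd0] at h1 h2
  exact ⟨h1, h2⟩

end Pool.Agent.Q290.CV
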