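import Pool.Agent.Q290.CV.Dens

/-!
# The candidates for primes of the form `n ^ n + 1`

If `n ^ n + 1` is prime and `n > 1`, then `n = 2 ^ (2 ^ k)` for some `k`.
-/

set_option autoImplicit false

namespace Pool.Agent.Q290.CV

open Finset MeasureTheory Filter Pool.Agent.Q120.ET Pool.Agent.Q120.ME
open scoped Topology

/-- The number `n ^ n + 1` for `n = 2 ^ (2 ^ k)`. -/
def N (k : ℕ) : ℕ := (2 ^ 2 ^ k) ^ 2 ^ 2 ^ k + 1

/-- The set of the `k` with `N k ∈ A`. -/
def idx {Ω : Type} (A : Ω → Set ℕ) (ω : Ω) : Set ℕ := {k | N k ∈ A ω}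

/-- The relative entropy of the law of the set of the `k < K` with `N k ∈ A`, with respect to the model. -/
noncomputable def info (q : ℕ → ℝ) {Ω : Type} [MeasurableSpace Ω] (μ : Measure Ω) (A : Ω → Set ℕ) (K : ℕ) : ℝ :=
  relEnt q μ (idx A) (range K)

open Classical in
/-- The number of the `k < K` with `N k ∈ S`. -/
noncomputable def num (S : Set ℕ) (K : ℕ) : ℕ := ((range K).filter (fun k => N k ∈ S)).card

theorem N_inj : Function.Injective N := by
  refine StrictMono.injective (strictMono_nat_of_lt_succ (fun k => ?_))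
  have h1 : 2 ^ 2 ^ k < 2 ^ 2 ^ (k + 1) := Nat.pow_lt_pow_right (by norm_num) (Nat.pow_lt_pow_right (by norm_num) (Nat.lt_succ_self k))
  unfold N
  have h2 : (2 ^ 2 ^ k) ^ 2 ^ 2 ^ k < (2 ^ 2 ^ (k + 1)) ^ 2 ^ 2 ^ k :=
    Nat.pow_lt_pow_left h1 (by positivity)
  have h3 : (2 ^ 2 ^ (k + 1)) ^ 2 ^ 2 ^ k ≤ (2 ^ 2 ^ (k + 1)) ^ 2 ^ 2 ^ (k + 1) :=
    Nat.pow_le_pow_right (by positivity) h1.le
  omega

theorem idx_rand {Ω : Type} [MeasurableSpace Ω] {A : Ω → Set ℕ} (hA : IsRandomSet A) : IsRandomSet (idx A) := fun k => hA (N k)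

theorem idx_image {Ω : Type} (B : Ω → Set ℕ) : idx (fun ω => N '' B ω) = B := by
  funext ω
  ext k
  exact N_inj.mem_set_image

theorem image_rand {Ω : Type} [MeasurableSpace Ω] {B : Ω → Set ℕ} (hB : IsRandomSet B) : IsRandomSet (fun ω => N '' B ω) := by
  intro n
  by_cases hn : ∃ k, N k = n
  · obtain ⟨k, rfl⟩ := hn
    have h1 : {ω | N k ∈ N '' B ω} = {ω | k ∈ B ω} := by
      ext ω
      exact N_inj.mem_set_image
    rw [h1]
    exact hB k
  · have h1 : {ω | n ∈ N '' B ω} = ∅ := by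
      ext ω
      simp only [Set.mem_ofPred_eq, Set.mem_empty_iff_false, iff_false]
      rintro ⟨k, -, hk⟩
      exact hn ⟨k, hk⟩
    rw [h1]
    exact MeasurableSet.empty

theorem num_eq {Ω : Type} (A : Ω → Set ℕ) (ω : Ω) (K : ℕ) : num (A ω) K = cnt Set.univ (idx A ω) K := by
  unfold num cnt
  rw [ind_univ]
  rfl

theorem model {q : ℕ → ℝ} (hq : ∀ k, 0 < q k ∧ q k < 1) {c C : ℝ} (hc : 0 < c)
    (h : ∀ᶠ k : ℕ in atTop, Real.exp (-(C * 2 ^ k)) ≤ q k ∧ q k ≤ Real.exp (-(c * 2 ^ k))) :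
    CModel Set.univ q (fun k => (2 : ℝ) ^ k) where
  pos k _ := (hq k).1
  lt_one k _ := (hq k).2
  lpos k := by positivity
  mono := fun a b hab => pow_le_pow_right₀ (by norm_num) hab
  top := tendsto_pow_atTop_atTop_of_one_lt (by norm_num)
  upper := by
    refine ⟨c / 2, by positivity, ?_⟩
    rw [Set.indicator_univ]
    have h1 : Summable (fun k : ℕ => Real.exp (-(c / 2)) ^ k) :=
      summable_geometric_of_lt_one (Real.exp_pos _).le ((Real.exp_lt_exp.2 (show -(c / 2) < 0 by linarith)).trans_eq Real.exp_zero)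
    refine Summable.of_norm_bounded_eventually_nat h1 ?_
    filter_upwards [h] with k hk
    rw [Real.norm_of_nonneg (mul_nonneg (hq k).1.le (Real.exp_pos _).le)]
    have h2 : q k * Real.exp (c / 2 * 2 ^ k) ≤ Real.exp (-(c * 2 ^ k)) * Real.exp (c / 2 * 2 ^ k) :=
      mul_le_mul_of_nonneg_right hk.2 (Real.exp_pos _).le
    refine h2.trans ?_
    rw [← Real.exp_add, ← Real.exp_nat_mul]
    apply Real.exp_le_exp.2
    have h3 : (k : ℝ) ≤ 2 ^ k := by exact_mod_cast (Nat.lt_two_pow_self (n := k)).le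
    nlinarith
  lower := by
    refine ⟨C, ?_⟩
    filter_upwards [h] with k hk _
    have h1 := Real.log_le_log (Real.exp_pos _) hk.1
    rw [Real.log_exp] at h1
    linarith
  dense := ⟨1, Eventually.of_forall (fun n => ⟨n, Set.mem_univ n, le_rfl, by rw [one_mul]⟩)⟩

theorem sum_iff (d : ℕ → ℝ) : Summable (fun n : ℕ => (1 / (2 : ℝ) ^ n - 1 / (2 : ℝ) ^ (n + 1)) * d (n + 1)) ↔
    Summable (fun n : ℕ => d n / 2 ^ n) := by
  rw [← summable_nat_add_iff (f := fun n : ℕ => d n / 2 ^ n) 1]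
  refine summable_congr (fun n => ?_)
  rw [pow_succ]
  field_simp
  ring

end Pool.Agent.Q290.CV
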