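import Pool.Agent.Q290.CV.Log

/-!
# Pairs of terms of the two sequences given by `(1 + √2) ^ n`
-/

set_option autoImplicit false

namespace Pool.Agent.Q290.CV.Pell

open Finset MeasureTheory Filter Pool.Agent.Q120.ET
open scoped Topology

/-- `(a n, b n)` with `a n + b n √2 = (1 + √2) ^ n` -/
def pell : ℕ → ℕ × ℕ
  | 0 => (1, 0)
  | n + 1 => ((pell n).1 + 2 * (pell n).2, (pell n).1 + (pell n).2)

/-- `a n` -/
def a (n : ℕ) : ℕ := (pell n).1

/-- `b n` -/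
def b (n : ℕ) : ℕ := (pell n).2

theorem a_succ (n : ℕ) : a (n + 1) = a n + 2 * b n := rfl

theorem b_succ (n : ℕ) : b (n + 1) = a n + b n := rfl

theorem a_pos (n : ℕ) : 0 < a n := by
  induction n with
  | zero => exact Nat.one_pos
  | succ n ih => rw [a_succ]; omega

theorem b_pos (n : ℕ) : 0 < b (n + 1) := by
  rw [b_succ]
  have := a_pos n
  omega

theorem a_lt (n : ℕ) : a (n + 1) < a (n + 2) := by
  rw [a_succ (n + 1)]
  have := b_pos n
  omega

theorem a_mono : StrictMono (fun n => a (n + 1)) := strictMono_nat_of_lt_succ a_lt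

theorem b_lt (n : ℕ) : b (n + 1) < b (n + 2) := by
  rw [b_succ (n + 1)]
  have := a_pos (n + 1)
  omega

theorem b_mono : StrictMono (fun n => b (n + 1)) := strictMono_nat_of_lt_succ b_lt

/-- the odd primes -/
def U : Set ℕ := {l | l.Prime ∧ l ≠ 2}

theorem three_le {l : ℕ} (h : l ∈ U) : 3 ≤ l := by
  have := h.1.two_le
  have := h.2
  omega

theorem a_inj {l m : ℕ} (hl : l ∈ U) (hm : m ∈ U) (h : a l = a m) : l = m := by
  have h1 := three_le hl
  have h2 := three_le hm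
  have h3 : (fun n => a (n + 1)) (l - 1) = (fun n => a (n + 1)) (m - 1) := by
    show a (l - 1 + 1) = a (m - 1 + 1)
    rwa [Nat.sub_add_cancel (by omega), Nat.sub_add_cancel (by omega)]
  have := a_mono.injective h3
  omega

theorem a_ne_b {l m : ℕ} (hl : l ∈ U) (hm : m ∈ U) : a l ≠ b m := by
  have h1 := three_le hl
  have h2 := three_le hm
  obtain ⟨l', rfl⟩ : ∃ l', l = l' + 1 := ⟨l - 1, by omega⟩
  obtain ⟨m', rfl⟩ : ∃ m', m = m' + 2 := ⟨m - 2, by omega⟩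
  intro h
  have h3 : b (m' + 2) = a (m' + 1) + b (m' + 1) := b_succ _
  have h4 : a (m' + 2) = a (m' + 1) + 2 * b (m' + 1) := a_succ _
  have h5 := b_pos m'
  have h6 : a (m' + 1) < a (l' + 1) := by omega
  have h7 : a (l' + 1) < a (m' + 2) := by omega
  have h8 : m' < l' := a_mono.lt_iff_lt.1 h6
  have h9 : l' < m' + 1 := a_mono.lt_iff_lt.1 h7
  omega

/-- the odd primes `l` such that `a l` and `b l` both belong to `A` -/
def idx {Ω : Type} (A : Ω → Set ℕ) (ω : Ω) : Set ℕ := {l | a l ∈ A ω ∧ b l ∈ A ω}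

/-- the set of the `a l` and `b l`, `l ∈ B` -/
def im {Ω : Type} (B : Ω → Set ℕ) (ω : Ω) : Set ℕ := {m | ∃ l ∈ U, l ∈ B ω ∧ (m = a l ∨ m = b l)}

theorem mem_idx_im {Ω : Type} (B : Ω → Set ℕ) {l : ℕ} (hl : l ∈ U) (ω : Ω) : l ∈ idx (im B) ω ↔ l ∈ B ω := by
  constructor
  · rintro ⟨⟨m, hm, hB, h | h⟩, -⟩
    · rw [a_inj hl hm h]
      exact hB
    · exact absurd h (a_ne_b hl hm)
  · intro h
    exact ⟨⟨l, hl, h, Or.inl rfl⟩, ⟨l, hl, h, Or.inr rfl⟩⟩

theorem idx_rand {Ω : Type} [MeasurableSpace Ω] {A : Ω → Set ℕ} (hA : IsRandomSet A) : IsRandomSet (idx A) := by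
  intro l
  have : {ω | l ∈ idx A ω} = {ω | a l ∈ A ω} ∩ {ω | b l ∈ A ω} := rfl
  rw [this]
  exact (hA _).inter (hA _)

theorem im_rand {Ω : Type} [MeasurableSpace Ω] {B : Ω → Set ℕ} (hB : IsRandomSet B) : IsRandomSet (im B) := by
  intro m
  have : {ω | m ∈ im B ω} = ⋃ l : ℕ, {ω | l ∈ B ω} ∩ {_ω | l ∈ U ∧ (m = a l ∨ m = b l)} := by
    ext ω
    simp only [im, Set.mem_ofPred_eq, Set.mem_iUnion, Set.mem_inter_iff]
    constructor
    · rintro ⟨l, h1, h2, h3⟩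
      exact ⟨l, h2, h1, h3⟩
    · rintro ⟨l, h2, h1, h3⟩
      exact ⟨l, h1, h2, h3⟩
  rw [this]
  exact MeasurableSet.iUnion (fun l => (hB l).inter (MeasurableSet.const _))

theorem bertrand : ∀ᶠ n : ℕ in atTop, ∃ u ∈ U, n ≤ u ∧ u ≤ 2 * n := by
  filter_upwards [eventually_ge_atTop 2] with n hn
  obtain ⟨p, hp, h1, h2⟩ := Nat.exists_prime_lt_and_le_two_mul n (by omega)
  exact ⟨p, ⟨hp, by omega⟩, h1.le, h2⟩

end Pool.Agent.Q290.CV.Pell
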